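import Pool.Agent.helper82.TG.MX

set_option linter.all false
set_option autoImplicit false

/-! # HP4: lifted lines meeting a small set -/

namespace Pool.Agent.helper24.TG

open Finset Classical
open Pool.Agent.helper11.Tight (nb eo mem_nb)

/-- `q ≥ (c B)^100` -/
theorem HP4_q_ge (p : Par) : (p.c * p.B) ^ 100 ≤ p.q := by
  have h1 := p.N2
  have h2 := p.N3'
  have hd := p.hd
  have hL := p.hL
  have hX : 1 ≤ (p.c * p.B) ^ 100 := Nat.one_le_pow _ _ (Nat.mul_pos
    (lt_of_lt_of_le (by norm_num) (MX_c_ge p)) (lt_of_lt_of_le (by norm_num) (MX_B_ge p)))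
  have h3 : p.d ≤ p.N := le_trans (Nat.le_mul_of_pos_left _ hX) h2
  have h4 : (p.c * p.B) ^ 100 * p.N ≤ (p.c * p.B) ^ 100 * p.L * (p.K + 1) * p.N := by
    have : (p.c * p.B) ^ 100 ≤ (p.c * p.B) ^ 100 * p.L * (p.K + 1) := by
      rw [mul_assoc]
      exact Nat.le_mul_of_pos_right _ (Nat.mul_pos hL (Nat.succ_pos _))
    exact Nat.mul_le_mul_right _ this
  have h5 : (p.c * p.B) ^ 100 * p.d ≤ p.q * p.d :=
    le_trans (Nat.mul_le_mul_left _ h3) (le_trans h4 h1)
  exact Nat.le_of_mul_le_mul_right h5 (by omega)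

theorem HP4_q_ge' (p : Par) : p.c * p.B * (p.c * p.B) ≤ p.q := by
  refine le_trans ?_ (HP4_q_ge p)
  rw [← sq]
  exact Nat.pow_le_pow_right (Nat.mul_pos
    (lt_of_lt_of_le (by norm_num) (MX_c_ge p)) (lt_of_lt_of_le (by norm_num) (MX_B_ge p)))
    (by norm_num)

/-- the number of lifted points -/
theorem HP4_card (p : Par) (P O A : Type) [Fintype P] [DecidableEq P] [Fintype O]
    [DecidableEq O] [Fintype A] [DecidableEq A] (H : Host P O p.q) (hA : Fintype.card A = p.B) :
    Fintype.card (P × A) ≤ 2 ^ p.Lam := by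
  rw [Fintype.card_prod, H.card_P, hA]
  refine le_trans ?_ p.s1
  have hq := MX_q_ge p
  have hC : 1 ≤ p.C := by
    rcases Nat.eq_zero_or_pos p.C with h | h
    · have h1 := p.hC1
      rw [h] at h1
      have h2 := p.hd
      have h3 := MX_c_ge p
      have : 0 < p.c ^ 3 * p.q * p.d :=
        Nat.mul_pos (Nat.mul_pos (pow_pos (by omega) _) (by omega)) (by omega)
      omega
    · exact h
  have h1 : p.q ^ 2 + p.q + 1 ≤ 4 * p.q ^ 2 := by nlinarith
  calc (p.q ^ 2 + p.q + 1) * p.B ≤ 4 * p.q ^ 2 * p.B := Nat.mul_le_mul_right _ h1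
    _ = 4 * p.B * p.q ^ 2 * 1 := by ring
    _ ≤ _ := Nat.mul_le_mul_left _ hC

section
variable {P O A : Type} [Fintype P] [DecidableEq P] [Fintype O]
  [DecidableEq O] [Fintype A] [DecidableEq A] [AddCommGroup A] {q : ℕ}

/-- collisions: flags `(x, l)`, `x ∈ S`, whose lifted line is met by a point of `S` of a type with
smaller rank -/
noncomputable def HP4_C (H : Host P O q) (rk : O → ℕ) (S : Finset (P × A)) (v : O → A) :
    Finset ((P × A) × P) :=
  (S ×ˢ (Finset.univ : Finset P)).filter (fun e => H.inc e.1.1 e.2 ∧ e.2 ∉ H.fixL ∧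
    ∃ x ∈ S, H.inc x.1 e.2 ∧ rk (H.orb x.1 e.2) < rk (H.orb e.1.1 e.2) ∧
      v (H.orb e.1.1 e.2) - e.1.2 = v (H.orb x.1 e.2) - x.2)

noncomputable def HP4_X (H : Host P O q) (rk : O → ℕ) (S : Finset (P × A)) (o : O) (v : O → A) :
    ℕ := ((HP4_C H rk S v).filter (fun e => H.orb e.1.1 e.2 = o)).card

noncomputable def HP4_T (H : Host P O q) (rk : O → ℕ) (S : Finset (P × A)) :
    Finset (((P × A) × P) × (P × A)) :=
  ((S ×ˢ (Finset.univ : Finset P)) ×ˢ S).filter (fun e => H.inc e.1.1.1 e.1.2 ∧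
    H.inc e.2.1 e.1.2 ∧ rk (H.orb e.2.1 e.1.2) < rk (H.orb e.1.1.1 e.1.2))

noncomputable def HP4_S (H : Host P O q) (rk : O → ℕ) (S : Finset (P × A)) (o : O) : ℕ :=
  ((HP4_T H rk S).filter (fun e => H.orb e.1.1.1 e.1.2 = o)).card

theorem HP4_sum_X (H : Host P O q) (rk : O → ℕ) (S : Finset (P × A)) (v : O → A) :
    ∑ o, HP4_X H rk S o v = (HP4_C H rk S v).card := by
  unfold HP4_X
  rw [Finset.card_eq_sum_card_fiberwise (f := fun e : (P × A) × P => H.orb e.1.1 e.2)
    (t := Finset.univ)]
  intro x _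
  exact Finset.mem_coe.mpr (Finset.mem_univ _)

theorem HP4_sum_S (H : Host P O q) (rk : O → ℕ) (S : Finset (P × A)) :
    ∑ o, HP4_S H rk S o ≤ S.card * S.card := by
  unfold HP4_S
  rw [← Finset.card_eq_sum_card_fiberwise (f := fun e : ((P × A) × P) × (P × A) =>
    H.orb e.1.1.1 e.1.2) (t := Finset.univ) (s := HP4_T H rk S)
    (fun x _ => Finset.mem_coe.mpr (Finset.mem_univ _)), ← Finset.card_product]
  refine Finset.card_le_card_of_injOn (fun e => (e.1.1, e.2)) ?_ ?_
  · rintro ⟨⟨x, l⟩, y⟩ he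
    simp only [HP4_T, Finset.coe_filter, Finset.mem_product, Finset.mem_univ, and_true,
      Set.mem_setOf_eq] at he
    exact Finset.mem_coe.mpr (Finset.mem_product.mpr ⟨he.1.1, he.1.2⟩)
  · rintro ⟨⟨x, l⟩, y⟩ he ⟨⟨x', l'⟩, y'⟩ he' h
    simp only [HP4_T, Finset.coe_filter, Finset.mem_product, Finset.mem_univ, and_true,
      Set.mem_setOf_eq] at he he'
    simp only [Prod.mk.injEq] at h
    obtain ⟨rfl, rfl⟩ := h
    obtain ⟨_, h1, h2, h3⟩ := he
    obtain ⟨_, h1', h2', h3'⟩ := he'
    have hne : x.1 ≠ y.1 := by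
      intro hxy
      rw [hxy] at h3
      exact lt_irrefl _ h3
    rw [H.uniq x.1 y.1 l l' hne h1 h2 h1' h2']

theorem HP4_X_le (H : Host P O q) (rk : O → ℕ) (S : Finset (P × A)) (o : O) (v : O → A) :
    HP4_X H rk S o v ≤ 6 * Fintype.card A := by
  unfold HP4_X
  refine le_trans ?_ (Nat.mul_le_mul_right _ (H.orb_le o))
  rw [← Finset.card_univ (α := A), ← Finset.card_product]
  refine Finset.card_le_card_of_injOn (fun e => ((e.1.1, e.2), e.1.2)) ?_ ?_
  · rintro ⟨x, l⟩ he
    simp only [HP4_C, Finset.coe_filter, Finset.mem_filter, Finset.mem_product, Finset.mem_univ,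
      and_true, Set.mem_setOf_eq] at he
    refine Finset.mem_coe.mpr (Finset.mem_product.mpr ⟨?_, Finset.mem_univ _⟩)
    simp only [Finset.mem_filter, Finset.mem_univ, true_and]
    exact ⟨he.1.2.1, he.2⟩
  · rintro ⟨x, l⟩ _ ⟨x', l'⟩ _ h
    simp only [Prod.mk.injEq] at h
    obtain ⟨⟨h1, h2⟩, h3⟩ := h
    exact Prod.ext (Prod.ext h1 h3) h2

theorem HP4_free (H : Host P O q) (rk : O → ℕ) (S : Finset (P × A)) (o o' : O)
    (h : rk o < rk o') (v : O → A) (a : A) :
    HP4_X H rk S o (Function.update v o' a) = HP4_X H rk S o v := by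
  unfold HP4_X HP4_C
  rw [Finset.filter_filter, Finset.filter_filter]
  congr 1
  apply Finset.filter_congr
  rintro ⟨x, l⟩ _
  simp only
  have hne : ∀ o'', rk o'' ≤ rk o → Function.update v o' a o'' = v o'' := by
    intro o'' ho
    apply Function.update_of_ne
    rintro rfl
    omega
  constructor
  · rintro ⟨⟨h1, h2, y, hy, h3, h4, h5⟩, rfl⟩
    rw [hne _ le_rfl, hne _ h4.le] at h5
    exact ⟨⟨h1, h2, y, hy, h3, h4, h5⟩, rfl⟩
  · rintro ⟨⟨h1, h2, y, hy, h3, h4, h5⟩, rfl⟩
    refine ⟨⟨h1, h2, y, hy, h3, h4, ?_⟩, rfl⟩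
    rw [hne _ le_rfl, hne _ h4.le]
    exact h5

theorem HP4_sum_upd (H : Host P O q) (rk : O → ℕ) (S : Finset (P × A)) (o : O) (v : O → A) :
    ∑ a, HP4_X H rk S o (Function.update v o a) ≤ HP4_S H rk S o := by
  -- a common set of triples
  have h1 : ∑ a, HP4_X H rk S o (Function.update v o a) =
      ((Finset.univ : Finset A).sigma (fun a => (HP4_C H rk S (Function.update v o a)).filter
        (fun e => H.orb e.1.1 e.2 = o))).card := by
    rw [Finset.card_sigma]
    rfl
  rw [h1]
  unfold HP4_S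
  have key : ∀ e : (Σ _ : A, (P × A) × P), e ∈ ((Finset.univ : Finset A).sigma
      (fun a => (HP4_C H rk S (Function.update v o a)).filter
        (fun e => H.orb e.1.1 e.2 = o))) → ∃ y : P × A,
      (e.2, y) ∈ (HP4_T H rk S).filter (fun e => H.orb e.1.1.1 e.1.2 = o) ∧
        e.1 = v (H.orb y.1 e.2.2) - y.2 + e.2.1.2 := by
    rintro ⟨a, ⟨x, l⟩⟩ he
    simp only [HP4_C, Finset.mem_sigma, Finset.mem_filter, Finset.mem_product, Finset.mem_univ,
      and_true, true_and] at he
    obtain ⟨⟨hx, h1, h2, y, hy, h3, h4, h5⟩, ho⟩ := he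
    refine ⟨y, ?_, ?_⟩
    · simp only [HP4_T, Finset.mem_filter, Finset.mem_product, Finset.mem_univ, and_true]
      exact ⟨⟨⟨hx, hy⟩, h1, h3, h4⟩, ho⟩
    · show a = v (H.orb y.1 l) - y.2 + x.2
      have hne : H.orb y.1 l ≠ o := by
        intro h
        rw [h, ho] at h4
        exact lt_irrefl _ h4
      rw [ho, Function.update_self, Function.update_of_ne hne] at h5
      rw [← h5, sub_add_cancel]
  have key' : ∀ e : (Σ _ : A, (P × A) × P), ∃ y : P × A, e ∈ ((Finset.univ : Finset A).sigma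
      (fun a => (HP4_C H rk S (Function.update v o a)).filter
        (fun e => H.orb e.1.1 e.2 = o))) →
      (e.2, y) ∈ (HP4_T H rk S).filter (fun e => H.orb e.1.1.1 e.1.2 = o) ∧
        e.1 = v (H.orb y.1 e.2.2) - y.2 + e.2.1.2 := by
    intro e
    by_cases he : e ∈ ((Finset.univ : Finset A).sigma
      (fun a => (HP4_C H rk S (Function.update v o a)).filter
        (fun e => H.orb e.1.1 e.2 = o)))
    · obtain ⟨y, hy⟩ := key e he
      exact ⟨y, fun _ => hy⟩
    · exact ⟨e.2.1, fun h => absurd h he⟩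
  choose Y hY using key'
  have hY1 := fun e he => (hY e he).1
  have hY2 := fun e he => (hY e he).2
  refine Finset.card_le_card_of_injOn (fun e => (e.2, Y e)) (fun e he => hY1 e he) ?_
  rintro ⟨a, e⟩ he ⟨a', e'⟩ he' h
  simp only [Prod.mk.injEq] at h
  obtain ⟨h1, h2⟩ := h
  subst h1
  have e1 := hY2 _ (Finset.mem_coe.mp he)
  have e2 := hY2 _ (Finset.mem_coe.mp he')
  simp only at e1 e2
  rw [h2, ← e2] at e1
  subst e1
  rfl

/-- the lifted lines meeting `S` -/
theorem HP4_LLs (H : Host P O q) (rk : O → ℕ) (hrk : Function.Injective rk)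
    (S : Finset (P × A)) (v : O → A) :
    (q + 1) * S.card ≤ (LLs H v S).card + (HP4_C H rk S v).card + 3 * S.card := by
  set F : Finset ((P × A) × P) :=
    (S ×ˢ (Finset.univ : Finset P)).filter (fun e => H.inc e.1.1 e.2) with hF
  have hFc : F.card = (q + 1) * S.card := by
    rw [hF, Finset.card_filter, Finset.sum_product]
    have h : ∀ x ∈ S, ∑ l, (if H.inc x.1 l then 1 else 0) = q + 1 := by
      intro x _
      rw [← Finset.card_filter, H.card_pt]
    rw [Finset.sum_congr rfl h, Finset.sum_const, smul_eq_mul, mul_comm]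
  set G := (F.filter (fun e => e.2 ∉ H.fixL)).filter (fun e => e ∉ HP4_C H rk S v) with hG
  have hGc : G.card ≤ (LLs H v S).card := by
    refine Finset.card_le_card_of_injOn
      (fun e => ((e.2, v (H.orb e.1.1 e.2) - e.1.2) : P × A)) ?_ ?_
    · rintro ⟨x, l⟩ he
      simp only [hG, hF, Finset.coe_filter, Finset.mem_filter, Finset.mem_product,
        Finset.mem_univ, and_true, Set.mem_setOf_eq] at he
      refine Finset.mem_coe.mpr ?_
      simp only [LLs, Finset.mem_filter, Finset.mem_univ, true_and]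
      exact ⟨x, he.1.1.1, onL_mk' v x he.1.1.2⟩
    · have key : ∀ (x y : P × A) (l : P), (x, l) ∈ G → (y, l) ∈ G →
          v (H.orb x.1 l) - x.2 = v (H.orb y.1 l) - y.2 →
          ¬ rk (H.orb x.1 l) < rk (H.orb y.1 l) := by
        intro x y l hx hy hxy hlt
        simp only [hG, hF, HP4_C, Finset.mem_filter, Finset.mem_product,
          Finset.mem_univ, and_true] at hx hy
        exact hy.2 ⟨hy.1.1.1, hy.1.1.2, hy.1.2, x, hx.1.1.1, hx.1.1.2, hlt, hxy.symm⟩
      rintro ⟨x, l⟩ hx ⟨y, l'⟩ hy h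
      simp only [Prod.mk.injEq] at h
      obtain ⟨rfl, h⟩ := h
      have hx' := Finset.mem_coe.mp hx
      have hy' := Finset.mem_coe.mp hy
      have k1 := key x y l hx' hy' h
      have k2 := key y x l hy' hx' h.symm
      have k3 : H.orb x.1 l = H.orb y.1 l := hrk (by omega)
      simp only [hG, hF, Finset.mem_filter, Finset.mem_product,
        Finset.mem_univ, and_true] at hx' hy'
      have k4 : x.1 = y.1 := H.fixL_spec l hx'.1.2 x.1 y.1 hx'.1.1.2 hy'.1.1.2 k3
      rw [k4] at h
      have k5 : x.2 = y.2 := by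
        have := sub_right_injective h
        exact this
      rw [Prod.ext k4 k5]
  have hfix : (F.filter (fun e => ¬ e.2 ∉ H.fixL)).card ≤ 3 * S.card := by
    have : F.filter (fun e => ¬ e.2 ∉ H.fixL) ⊆ S ×ˢ H.fixL := by
      rintro ⟨x, l⟩ he
      simp only [hF, Finset.mem_filter, Finset.mem_product, Finset.mem_univ, and_true,
        not_not] at he ⊢
      exact ⟨he.1.1, he.2⟩
    refine (Finset.card_le_card this).trans ?_
    rw [Finset.card_product, mul_comm]
    exact Nat.mul_le_mul_right _ H.card_fixL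
  have hC : ((F.filter (fun e => e.2 ∉ H.fixL)).filter
      (fun e => ¬ e ∉ HP4_C H rk S v)).card ≤ (HP4_C H rk S v).card := by
    apply Finset.card_le_card
    intro e he
    simp only [Finset.mem_filter, not_not] at he
    exact he.2
  have e1 := Finset.card_filter_add_card_filter_not (s := F) (fun e => e.2 ∉ H.fixL)
  have e2 := Finset.card_filter_add_card_filter_not (s := F.filter (fun e => e.2 ∉ H.fixL))
    (fun e => e ∉ HP4_C H rk S v)
  rw [← hG] at e2
  omega

end

theorem HP4 (vs4 : VS4_stmt) : HP4_stmt := by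
  intro p P O A _ _ _ _ _ _ _ H hA hA2
  have hc := MX_c_ge p
  have hq := MX_q_ge p
  have hB := MX_B_ge p
  have hcr : (10 : ℝ) ^ 6 ≤ p.c := by exact_mod_cast hc
  have hqr : (10 : ℝ) ^ 6 ≤ p.q := by exact_mod_cast hq
  have hBr : (10 : ℝ) ^ 6 ≤ p.B := by exact_mod_cast hB
  let rk : O → ℕ := fun o => (Fintype.equivFin O o).val
  have hrk : Function.Injective rk := fun a b h => (Fintype.equivFin O).injective (Fin.ext h)
  let bad : Finset (P × A) → (O → A) → Prop := fun S v =>
    1000 * S.card ≤ p.q * p.B ∧ ¬ 7 * p.q * S.card ≤ 8 * (LLs H v S).card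
  have main := ub_sets (X := P × A) (Om A H.TT) p.Lam (10 * p.Lam)
    (HP4_card p P O A H hA) bad ?_
  · refine le_trans (Nat.mul_le_mul_right _ (Finset.card_le_card ?_)) main
    intro v hv
    rw [Finset.mem_filter] at hv ⊢
    refine ⟨hv.1, ?_⟩
    have h := hv.2
    unfold H4 at h
    push Not at h
    obtain ⟨S, hS1, hS2⟩ := h
    refine ⟨S, ?_, hS1, not_le.mpr hS2⟩
    rw [Finset.nonempty_iff_ne_empty]
    rintro rfl
    simp at hS2
  · intro S hS
    by_cases hsize : 1000 * S.card ≤ p.q * p.B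
    · have hS1 : 1 ≤ S.card := hS.card_pos
      have hS1r : (1 : ℝ) ≤ S.card := by exact_mod_cast hS1
      set y : ℝ := p.q * S.card / 16 with hy
      have hR : (0 : ℝ) < 6 * p.B := by linarith
      have hv4 := vs4 O A H.TT 40 H.cs (by rw [hA]; omega) rk
        (fun o v => (HP4_X H rk S o v : ℝ)) (fun o => (HP4_S H rk S o : ℝ)) (6 * p.B) y hrk hR
        ?_ ?_ ?_ ?_
      · -- the bad event is contained in the event of VS4
        have hsub : (Om A H.TT).filter (bad S) ⊆
            (Om A H.TT).filter (fun v => y ≤ ∑ o, (HP4_X H rk S o v : ℝ)) := by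
          intro v hv
          rw [Finset.mem_filter] at hv ⊢
          refine ⟨hv.1, ?_⟩
          obtain ⟨_, hbad⟩ := hv.2
          push Not at hbad
          have h1 := HP4_LLs H rk hrk S v
          have h2 := HP4_sum_X H rk S v
          have h2' : ∑ o, (HP4_X H rk S o v : ℝ) = ((HP4_C H rk S v).card : ℝ) := by
            rw [← h2]; push_cast; rfl
          rw [h2']
          have h1' : ((p.q : ℝ) + 1) * S.card ≤ (LLs H v S).card + (HP4_C H rk S v).card +
              3 * S.card := by exact_mod_cast h1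
          have h3 : (8 : ℝ) * (LLs H v S).card < 7 * p.q * S.card := by exact_mod_cast hbad
          have h4 : 2 * (S.card : ℝ) ≤ p.q * S.card / 16 := by nlinarith
          rw [hy]
          nlinarith
        have hle : (((Om A H.TT).filter (bad S)).card : ℝ) ≤
            ((Om A H.TT).filter (fun v => y ≤ ∑ o, (HP4_X H rk S o v : ℝ))).card := by
          exact_mod_cast Finset.card_le_card hsub
        -- the exponent
        have hexp : ((2 : ℝ) ^ ((p.Lam + 1) * S.card + 10 * p.Lam)) ≤
            Real.exp (y / (2 * (6 * p.B))) := by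
          have h2e : (2 : ℝ) ≤ Real.exp 1 := by
            have := Real.add_one_le_exp (1 : ℝ)
            linarith
          have h1 : ((2 : ℝ) ^ ((p.Lam + 1) * S.card + 10 * p.Lam)) ≤
              Real.exp (((p.Lam + 1) * S.card + 10 * p.Lam : ℕ) : ℝ) := by
            calc ((2 : ℝ) ^ ((p.Lam + 1) * S.card + 10 * p.Lam)) ≤
                  (Real.exp 1) ^ ((p.Lam + 1) * S.card + 10 * p.Lam) :=
                  pow_le_pow_left₀ (by norm_num) h2e _
              _ = _ := by rw [← Real.exp_nat_mul, mul_one]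
          refine h1.trans (Real.exp_le_exp.mpr ?_)
          rw [hy, le_div_iff₀ (by positivity)]
          have hLr : (1 : ℝ) ≤ p.Lam := by exact_mod_cast p.hLam
          have hL2 : (10 : ℝ) ^ 6 * p.Lam ≤ p.c := by exact_mod_cast p.hLog
          have hqq : (p.c : ℝ) * p.B * (p.c * p.B) ≤ p.q := by exact_mod_cast HP4_q_ge' p
          push_cast
          have hS0 : (0 : ℝ) ≤ S.card := by linarith
          have e1 : ((p.Lam : ℝ) + 1) * S.card + 10 * p.Lam ≤ 12 * p.Lam * S.card := by
            nlinarith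
          have e2 : 12 * (p.Lam : ℝ) * S.card * (2 * (6 * p.B)) ≤ p.q * S.card / 16 := by
            have e3 : 2304 * (p.Lam : ℝ) * p.B ≤ p.q := by
              have e4 : (p.Lam : ℝ) ≤ p.c := by nlinarith
              have e5 : 2304 * (p.Lam : ℝ) * p.B ≤ p.c * p.B := by
                apply mul_le_mul_of_nonneg_right _ (by linarith)
                nlinarith
              have e6 : (p.c : ℝ) * p.B ≤ p.c * p.B * (p.c * p.B) := by
                have : (1 : ℝ) ≤ p.c * p.B := by nlinarith
                nlinarith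
              linarith
            nlinarith
          have e3 : (0 : ℝ) ≤ 2 * (6 * p.B) := by linarith
          calc (((p.Lam : ℝ) + 1) * S.card + 10 * p.Lam) * (2 * (6 * p.B))
              ≤ 12 * p.Lam * S.card * (2 * (6 * p.B)) := mul_le_mul_of_nonneg_right e1 e3
            _ ≤ _ := e2
        have hfin : (((Om A H.TT).filter (bad S)).card : ℝ) *
            (2 : ℝ) ^ ((p.Lam + 1) * S.card + 10 * p.Lam) ≤ ((Om A H.TT).card : ℝ) :=
          le_trans (mul_le_mul hle hexp (by positivity) (Nat.cast_nonneg _)) hv4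
        exact_mod_cast hfin
      · intro o v
        refine ⟨Nat.cast_nonneg _, ?_⟩
        have := HP4_X_le H rk S o v
        rw [hA] at this
        exact_mod_cast this
      · intro o o' h v a
        show ((HP4_X H rk S o (Function.update v o' a) : ℕ) : ℝ) = (HP4_X H rk S o v : ℕ)
        rw [HP4_free H rk S o o' h v a]
      · intro o v
        exact_mod_cast HP4_sum_upd H rk S o v
      · have h1 : (∑ o, (HP4_S H rk S o : ℝ)) ≤ S.card * S.card := by
          exact_mod_cast HP4_sum_S H rk S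
        rw [hA, hy]
        have h2 : (1000 : ℝ) * S.card ≤ p.q * p.B := by exact_mod_cast hsize
        have h3 : (64 : ℝ) * S.card ≤ p.q * (p.B - 40) := by nlinarith
        have hS0 : (0 : ℝ) ≤ S.card := by linarith
        push_cast
        nlinarith
    · have : (Om A H.TT).filter (bad S) = ∅ := by
        apply Finset.filter_eq_empty_iff.mpr
        intro v _ hbad
        exact hsize hbad.1
      rw [this]
      simp

end Pool.Agent.helper24.TG
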