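import Pool.Agent.helper24.TG.S2

set_option linter.all false
set_option autoImplicit false

/-! # MX: type level expander mixing -/

namespace Pool.Agent.helper24.TG

open Finset Classical
open Pool.Agent.helper11.Tight (nb eo mem_nb)

theorem MX_c_ge (p : Par) : 10 ^ 6 ≤ p.c := by
  have h1 := p.hLog
  have h2 := p.hLam
  nlinarith

theorem MX_q_ge (p : Par) : 10 ^ 6 ≤ p.q := by
  have h1 := p.N4
  have h2 := p.hLa
  have h3 : p.c ^ (p.kT + 12) ≤ p.q := le_trans (Nat.le_mul_of_pos_left _ h2) h1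
  have h4 := MX_c_ge p
  have h5 : p.c ^ 1 ≤ p.c ^ (p.kT + 12) := Nat.pow_le_pow_right (by omega) (by omega)
  rw [pow_one] at h5
  omega

theorem MX_B_ge (p : Par) : 10 ^ 6 ≤ p.B := by
  have h4 := MX_c_ge p
  have h5 : p.c ^ 1 ≤ p.c ^ 200 := Nat.pow_le_pow_right (by omega) (by omega)
  rw [pow_one] at h5
  have := p.N7
  omega

section
variable {P O A : Type} [Fintype P] [DecidableEq P] [Fintype O]
  [DecidableEq O] [Fintype A] [DecidableEq A] [AddCommGroup A] {q : ℕ}

/-- number of points of `W` whose type is on `l` -/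
noncomputable def MXf (H : Host P O q) (W : Finset (P × A)) (l : P) : ℕ :=
  (W.filter (fun y => H.inc y.1 l)).card

/-- number of points of `W` of type `t` -/
noncomputable def MXt (W : Finset (P × A)) (t : P) : ℕ := (W.filter (fun y => y.1 = t)).card

theorem MXt_le (W : Finset (P × A)) (t : P) : MXt W t ≤ Fintype.card A := by
  unfold MXt
  refine Finset.card_le_card_of_injOn (fun x => x.2) (fun x _ => Finset.mem_univ _) ?_
  intro x hx y hy h
  have hx := (Finset.mem_filter.mp hx).2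
  have hy := (Finset.mem_filter.mp hy).2
  exact Prod.ext (hx.trans hy.symm) h

theorem MX_sum_t (W : Finset (P × A)) : ∑ t, MXt W t = W.card := by
  unfold MXt
  rw [Finset.card_eq_sum_card_fiberwise (f := fun y : P × A => y.1) (t := Finset.univ)]
  intro x _
  exact Finset.mem_coe.mpr (Finset.mem_univ _)

theorem MX_sum_f (H : Host P O q) (W : Finset (P × A)) : ∑ l, MXf H W l = (q + 1) * W.card := by
  unfold MXf
  simp_rw [Finset.card_filter]
  rw [Finset.sum_comm]
  have h : ∀ y ∈ W, ∑ l, (if H.inc y.1 l then 1 else 0) = q + 1 := by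
    intro y _
    rw [← Finset.card_filter, H.card_pt]
  rw [Finset.sum_congr rfl h, Finset.sum_const, smul_eq_mul, mul_comm]

/-- at most one line through two types -/
theorem MX_common (H : Host P O q) (s t : P) :
    (Finset.univ.filter (fun l => H.inc s l ∧ H.inc t l)).card ≤ 1 + (if s = t then q else 0) := by
  by_cases h : s = t
  · subst h
    rw [if_pos rfl, ← add_comm, ← H.card_pt s]
    apply Finset.card_le_card
    intro l hl
    simp only [Finset.mem_filter, Finset.mem_univ, true_and] at hl ⊢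
    exact hl.1
  · rw [if_neg h, add_zero, Finset.card_le_one]
    intro l hl m hm
    simp only [Finset.mem_filter, Finset.mem_univ, true_and] at hl hm
    exact H.uniq s t l m h hl.1 hl.2 hm.1 hm.2

theorem MX_sum_ff (H : Host P O q) (W : Finset (P × A)) :
    ∑ l, MXf H W l ^ 2 ≤ W.card ^ 2 + q * (Fintype.card A * W.card) := by
  have h1 : ∀ l, MXf H W l ^ 2 = ∑ y ∈ W, ∑ z ∈ W, (if H.inc y.1 l ∧ H.inc z.1 l then 1 else 0) := by
    intro l
    unfold MXf
    rw [sq, Finset.card_filter, Finset.sum_mul_sum]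
    refine Finset.sum_congr rfl fun y _ => Finset.sum_congr rfl fun z _ => ?_
    by_cases h1 : H.inc y.1 l <;> by_cases h2 : H.inc z.1 l <;> simp [h1, h2]
  simp_rw [h1]
  rw [Finset.sum_comm]
  have h2 : ∀ y ∈ W, ∑ l, ∑ z ∈ W, (if H.inc y.1 l ∧ H.inc z.1 l then 1 else 0) ≤
      W.card + q * Fintype.card A := by
    intro y _
    rw [Finset.sum_comm]
    have h3 : ∀ z ∈ W, ∑ l, (if H.inc y.1 l ∧ H.inc z.1 l then 1 else 0) ≤
        1 + (if z.1 = y.1 then q else 0) := by
      intro z _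
      rw [← Finset.card_filter]
      have := MX_common H y.1 z.1
      simpa only [eq_comm] using this
    refine (Finset.sum_le_sum h3).trans ?_
    rw [Finset.sum_add_distrib, Finset.sum_const, smul_eq_mul, mul_one, ← Finset.sum_filter,
      Finset.sum_const, smul_eq_mul, mul_comm]
    exact Nat.add_le_add_left (Nat.mul_le_mul_left _ (MXt_le W y.1)) _
  refine (Finset.sum_le_sum h2).trans (le_of_eq ?_)
  rw [Finset.sum_const, smul_eq_mul]
  ring

end

theorem MX : MX_stmt := by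
  intro p P O A _ _ _ _ _ _ _ H hA i S W hS hW
  have hc := MX_c_ge p
  have hq := MX_q_ge p
  have hB := MX_B_ge p
  set E := ((S ×ˢ W).filter (fun e => H.inc e.2.1 (H.pi i e.1.1))).card with hE
  -- the number of pairs as a sum over lines
  have hE1 : E = ∑ l, MXt S (H.pi i l) * MXf H W l := by
    have e1 : E = ∑ x ∈ S, MXf H W (H.pi i x.1) := by
      rw [hE, Finset.card_filter, Finset.sum_product]
      refine Finset.sum_congr rfl fun x _ => ?_
      unfold MXf
      rw [Finset.card_filter]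
    have e2 : ∀ x ∈ S, MXf H W (H.pi i x.1) =
        ∑ l, (if x.1 = H.pi i l then MXf H W l else 0) := by
      intro x _
      rw [Finset.sum_eq_single (H.pi i x.1)]
      · rw [H.pi_pi, if_pos rfl]
      · intro l _ hl
        rw [if_neg]
        intro h
        apply hl
        rw [h, H.pi_pi]
      · intro h
        exact absurd (Finset.mem_univ _) h
    rw [e1, Finset.sum_congr rfl e2, Finset.sum_comm]
    refine Finset.sum_congr rfl fun l _ => ?_
    rw [← Finset.sum_filter, Finset.sum_const, smul_eq_mul]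
    rfl
  -- real numbers
  set s : ℝ := (S.card : ℝ) with hs
  set w : ℝ := (W.card : ℝ) with hw
  set q : ℝ := (p.q : ℝ) with hqq
  set B : ℝ := (p.B : ℝ) with hBB
  set M : ℝ := q ^ 2 + q + 1 with hM
  set μ : ℝ := (q + 1) * w / M with hμ
  have hq' : (10 : ℝ) ^ 6 ≤ q := by rw [hqq]; exact_mod_cast hq
  have hB' : (10 : ℝ) ^ 6 ≤ B := by rw [hBB]; exact_mod_cast hB
  have hM0 : 0 < M := by rw [hM]; positivity
  let g : P → ℝ := fun l => (MXt S (H.pi i l) : ℝ)
  let f : P → ℝ := fun l => (MXf H W l : ℝ)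
  have hg1 : ∑ l, g l = s := by
    have e := MX_sum_t S
    have e' : ∑ l, MXt S (H.pi i l) = S.card := by
      rw [← e]
      exact Equiv.sum_comp (Function.Involutive.toPerm (H.pi i) (H.pi_pi i)) (MXt S)
    have : ((∑ l, MXt S (H.pi i l) : ℕ) : ℝ) = s := by rw [e']
    rw [← this]
    push_cast
    rfl
  have hg2 : ∀ l, 0 ≤ g l ∧ g l ≤ B := by
    intro l
    refine ⟨Nat.cast_nonneg _, ?_⟩
    have := MXt_le S (H.pi i l)
    rw [hA] at this
    show ((MXt S (H.pi i l) : ℕ) : ℝ) ≤ (p.B : ℝ)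
    exact_mod_cast this
  have hg3 : ∑ l, g l ^ 2 ≤ B * s := by
    rw [← hg1, Finset.mul_sum]
    refine Finset.sum_le_sum fun l _ => ?_
    rw [sq]
    exact mul_le_mul_of_nonneg_right (hg2 l).2 (hg2 l).1
  have hf1 : ∑ l, f l = (q + 1) * w := by
    have := MX_sum_f H W
    have h' : ((∑ l, MXf H W l : ℕ) : ℝ) = ((p.q + 1) * W.card : ℕ) := by rw [this]
    push_cast at h'
    exact h'
  have hf2 : ∑ l, f l ^ 2 ≤ w ^ 2 + q * (B * w) := by
    have h' : ((∑ l, MXf H W l ^ 2 : ℕ) : ℝ) ≤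
        ((W.card ^ 2 + p.q * (Fintype.card A * W.card) : ℕ) : ℝ) := by
      exact_mod_cast MX_sum_ff H W
    rw [hA] at h'
    push_cast at h'
    exact h'
  have hcard : ((Fintype.card P : ℕ) : ℝ) = M := by
    rw [H.card_P, hM, hqq]
    push_cast
    ring
  have hf3 : ∑ l, (f l - μ) ^ 2 ≤ q * (B * w) := by
    have e : ∑ l, (f l - μ) ^ 2 = ∑ l, f l ^ 2 - 2 * μ * ∑ l, f l + M * μ ^ 2 := by
      have : ∀ l, (f l - μ) ^ 2 = f l ^ 2 - 2 * μ * f l + μ ^ 2 := fun l => by ring
      simp_rw [this]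
      rw [Finset.sum_add_distrib, Finset.sum_sub_distrib, ← Finset.mul_sum, Finset.sum_const,
        Finset.card_univ, nsmul_eq_mul, hcard]
    rw [e, hf1]
    have h4 : M * μ ^ 2 = (q + 1) ^ 2 * w ^ 2 / M := by
      rw [hμ]; field_simp
    have h5 : 2 * μ * ((q + 1) * w) = 2 * ((q + 1) ^ 2 * w ^ 2 / M) := by
      rw [hμ]; field_simp
    rw [h4, h5]
    have h6 : w ^ 2 ≤ (q + 1) ^ 2 * w ^ 2 / M := by
      rw [le_div_iff₀ hM0, hM]
      nlinarith [sq_nonneg w, mul_nonneg (sq_nonneg w) (le_trans (by norm_num) hq' : (0:ℝ) ≤ q)]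
    linarith
  have hEr : (E : ℝ) = ∑ l, g l * f l := by
    rw [hE1]
    push_cast
    rfl
  have hdiff : (E : ℝ) - μ * s = ∑ l, g l * (f l - μ) := by
    rw [hEr, ← hg1, Finset.mul_sum, ← Finset.sum_sub_distrib]
    refine Finset.sum_congr rfl fun l _ => ?_
    ring
  have hCS : ((E : ℝ) - μ * s) ^ 2 ≤ (B * s) * (q * (B * w)) := by
    rw [hdiff]
    refine (Finset.sum_mul_sq_le_sq_mul_sq _ _ _).trans ?_
    exact mul_le_mul hg3 hf3 (Finset.sum_nonneg fun l _ => sq_nonneg _)
      (by rw [hs, hBB]; positivity)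
  by_contra hcon
  push Not at hcon
  have hcon' : 2 * q * (E : ℝ) < s * w := by
    have : ((2 * p.q * E : ℕ) : ℝ) < ((S.card * W.card : ℕ) : ℝ) := by exact_mod_cast hcon
    push_cast at this
    exact this
  -- sizes
  have hW0 : (p.W0 : ℝ) ^ 2 = (p.c : ℝ) ^ 4 * B ^ 2 * q ^ 3 := by
    have h1 : (q : ℝ) = (p.sq : ℝ) ^ 2 := by
      rw [hqq]; exact_mod_cast p.hq
    unfold Par.W0
    push_cast
    rw [← hBB, ← hqq, h1]
    ring
  have hs0 : (p.W0 : ℝ) ≤ s := by rw [hs]; exact_mod_cast hS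
  have hw0 : (p.W0 : ℝ) ≤ w := by rw [hw]; exact_mod_cast hW
  have hW00 : (0 : ℝ) ≤ p.W0 := Nat.cast_nonneg _
  have hsw : (p.c : ℝ) ^ 4 * B ^ 2 * q ^ 3 ≤ s * w := by
    rw [← hW0, sq]
    exact mul_le_mul hs0 hw0 hW00 (le_trans hW00 hs0)
  have hc4 : (16 : ℝ) ≤ (p.c : ℝ) ^ 4 := by
    have : (2 : ℝ) ≤ p.c := by
      have : (10 : ℝ) ^ 6 ≤ p.c := by exact_mod_cast hc
      linarith
    calc (16 : ℝ) = 2 ^ 4 := by norm_num
      _ ≤ _ := pow_le_pow_left₀ (by norm_num) this _
  have hq0 : 0 < q := by linarith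
  have hB0 : 0 < B := by linarith
  have hbig : 0 < B ^ 2 * q ^ 3 := by positivity
  have hsw2 : 16 * (B ^ 2 * q ^ 3) ≤ s * w := by
    have : 16 * (B ^ 2 * q ^ 3) ≤ (p.c : ℝ) ^ 4 * (B ^ 2 * q ^ 3) :=
      mul_le_mul_of_nonneg_right hc4 hbig.le
    linarith
  have hsw0 : 0 < s * w := by linarith
  have hμs : 3 * (s * w) / (4 * q) ≤ μ * s := by
    rw [hμ, div_mul_eq_mul_div, div_le_div_iff₀ (by positivity) hM0, hM]
    have : 3 * (q ^ 2 + q + 1) ≤ (q + 1) * (4 * q) := by nlinarith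
    nlinarith
  have hEu : (E : ℝ) < s * w / (2 * q) := by
    rw [lt_div_iff₀ (by positivity)]
    linarith
  have hgap : s * w / (4 * q) < μ * s - E := by
    have e : 3 * (s * w) / (4 * q) = s * w / (4 * q) + s * w / (2 * q) := by
      field_simp
      ring
    linarith
  have hpos : 0 < s * w / (4 * q) := by positivity
  have hsq : (s * w / (4 * q)) ^ 2 < (B * s) * (q * (B * w)) := by
    have : (s * w / (4 * q)) ^ 2 < (μ * s - E) ^ 2 := by
      apply pow_lt_pow_left₀ hgap hpos.le (by norm_num)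
    have e : (μ * s - E) ^ 2 = ((E : ℝ) - μ * s) ^ 2 := by ring
    rw [e] at this
    linarith
  rw [div_pow, div_lt_iff₀ (by positivity)] at hsq
  have hfin : (s * w) * (s * w) < (s * w) * (16 * (B ^ 2 * q ^ 3)) := by
    have e : (B * s) * (q * (B * w)) * (4 * q) ^ 2 = (s * w) * (16 * (B ^ 2 * q ^ 3)) := by ring
    rw [e] at hsq
    linarith [sq (s * w)]
  have := lt_of_mul_lt_mul_left hfin hsw0.le
  linarith

end Pool.Agent.helper24.TG
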