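import Pool.Agent.helper24.TG.S4
import Pool.Agent.helper82.TG.HP4

set_option linter.all false
set_option autoImplicit false

/-! # Q2f: the property Q2 for all copies -/

namespace Pool.Agent.helper24.TG

open Finset Classical
open Pool.Agent.helper11.Tight (nb eo mem_nb)

theorem Q2f_C_le (p : Par) : p.C ≤ 2 ^ p.Lam := by
  refine le_trans ?_ p.s1
  have hq := MX_q_ge p
  have hB := MX_B_ge p
  exact Nat.le_mul_of_pos_left _ (Nat.mul_pos (by omega) (pow_pos (by omega) _))

theorem Q2f_card (p : Par) (P O A : Type) [Fintype P] [DecidableEq P] [Fintype O]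
    [DecidableEq O] [Fintype A] [DecidableEq A] (H : Host P O p.q) (hA : Fintype.card A = p.B) :
    Fintype.card (P × A) + 1 ≤ 2 ^ p.Lam := by
  rw [Fintype.card_prod, H.card_P, hA]
  refine le_trans ?_ p.s1
  have hq := MX_q_ge p
  have hB := MX_B_ge p
  have hC : 1 ≤ p.C := by
    rcases Nat.eq_zero_or_pos p.C with h | h
    · have h1 := p.hC1
      rw [h] at h1
      have h2 := p.hd
      have h3 := MX_c_ge p
      have : 0 < p.c ^ 3 * p.q * p.d :=
        Nat.mul_pos (Nat.mul_pos (pow_pos (by omega) _) (by omega)) (by omega)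
      omega
    · exact h
  have h1 : p.q ^ 2 + p.q + 2 ≤ 4 * p.q ^ 2 := by nlinarith
  calc (p.q ^ 2 + p.q + 1) * p.B + 1 ≤ (p.q ^ 2 + p.q + 2) * p.B := by nlinarith
    _ ≤ 4 * p.q ^ 2 * p.B := Nat.mul_le_mul_right _ h1
    _ = 4 * p.B * p.q ^ 2 * 1 := by ring
    _ ≤ _ := Nat.mul_le_mul_left _ hC

theorem Q2f (hQB2 : QB2_stmt) : Q2f_stmt := by
  intro p P O A V _ _ _ _ _ _ _ _ _ H v T MM v0 hA hT hH2
  have hc := MX_c_ge p
  have hq := MX_q_ge p
  have hB := MX_B_ge p
  have hLam := p.hLam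
  have hLog := p.hLog
  set Ω := Fintype.piFinset (fun _ : Fin p.C => Psi p H v0) with hΩ
  have hΩc : Ω.card = (Psi p H v0).card ^ p.C := by
    rw [hΩ, Fintype.card_piFinset]
    simp
  set k := p.c ^ 2 * p.q / p.B with hk
  have hkB : p.B * k ≤ p.c ^ 2 * p.q := Nat.mul_div_le _ _
  have hkB' : p.c ^ 2 * p.q < p.B * (k + 1) := Nat.lt_mul_div_succ _ (by omega)
  let I : Finset (Finset (P × A)) :=
    (Finset.univ : Finset (Finset (P × A))).filter (fun S => S.card ≤ p.q * p.B)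
  let bad0 : Finset (P × A) → (P → V) → Prop := fun E0 φ =>
    ∃ S, S ⊆ E0 ∧ FInd H v T φ S ∧ p.c ^ 2 * p.q ≤ S.card
  let bad : Finset (P × A) → (Fin p.C → P → V) → Prop := fun E0 φ =>
    E0 ⊆ XA A H ∧ p.B ^ 2 + 1 ≤ (Finset.univ.filter (fun j : Fin p.C => bad0 E0 (φ j))).card
  have main := ub Ω I bad (p.Lam * (p.q * p.B)) (4 * p.Lam) ?_ ?_
  · rw [← hΩc]
    refine le_trans (Nat.mul_le_mul_right _ (Finset.card_le_card ?_)) main
    intro φ hφ
    rw [Finset.mem_filter] at hφ ⊢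
    refine ⟨hφ.1, ?_⟩
    have h := hφ.2
    unfold Q2 at h
    push Not at h
    obtain ⟨E0, h1, h2, h3⟩ := h
    refine ⟨E0, by simp [I, h2], h1, ?_⟩
    exact h3
  · refine le_trans (card_small_sets (P × A) (p.q * p.B)) ?_
    rw [pow_mul 2 p.Lam]
    exact Nat.pow_le_pow_left (Q2f_card p P O A H hA) _
  · intro E0 hE0
    by_cases hsub : E0 ⊆ XA A H
    · have hE0' : E0.card ≤ p.q * p.B := by simpa [I] using hE0
      have h1 := hQB2 p P O A V H v T MM v0 hA hT hH2 E0 hsub hE0' k hkB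
      have h2 := prod_bad (Psi p H v0) p.C (p.B ^ 2 + 1) (2 ^ k) (fun _ φ => bad0 E0 φ)
        (fun j => by convert h1)
      have h3 : (Ω.filter (bad E0)).card * (2 ^ k) ^ (p.B ^ 2 + 1) ≤
          2 ^ (p.Lam * (p.B ^ 2 + 1)) * Ω.card := by
        rw [hΩc]
        refine le_trans (Nat.mul_le_mul_right _ (Finset.card_le_card ?_))
          (le_trans h2 (Nat.mul_le_mul_right _ ?_))
        · intro φ hφ
          rw [Finset.mem_filter] at hφ ⊢
          refine ⟨hφ.1, ?_⟩
          convert hφ.2.2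
        · refine le_trans (Nat.choose_le_pow _ _) ?_
          rw [pow_mul]
          exact Nat.pow_le_pow_left (Q2f_C_le p) _
      -- the exponents
      have h4 : p.Lam * (p.q * p.B) + 4 * p.Lam + p.Lam * (p.B ^ 2 + 1) ≤ k * (p.B ^ 2 + 1) := by
        have hqB : p.c * p.B * (p.c * p.B) ≤ p.q := HP4_q_ge' p
        have e1 : p.c ^ 2 * p.q * p.B ≤ k * p.B ^ 2 + p.B ^ 2 := by nlinarith
        have e2 : p.B ^ 2 ≤ p.q := by
          have : p.B * p.B ≤ p.c * p.B * (p.c * p.B) := by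
            have h5 : p.B ≤ p.c * p.B := Nat.le_mul_of_pos_left _ (by omega)
            exact Nat.mul_le_mul h5 h5
          nlinarith
        have e3 : 10 ^ 12 * p.Lam ≤ p.c ^ 2 := by
          have : 10 ^ 6 * (10 ^ 6 * p.Lam) ≤ p.c * p.c := Nat.mul_le_mul hc hLog
          nlinarith
        have e4 : 10 ^ 12 * p.Lam * (p.q * p.B) ≤ p.c ^ 2 * p.q * p.B := by
          calc 10 ^ 12 * p.Lam * (p.q * p.B) ≤ p.c ^ 2 * (p.q * p.B) :=
                Nat.mul_le_mul_right _ e3
            _ = _ := by ring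
        have e5 : p.B ^ 2 + 5 ≤ 6 * (p.q * p.B) := by nlinarith
        have e6 : p.Lam * (p.B ^ 2 + 5) ≤ 6 * (p.Lam * (p.q * p.B)) := by
          calc p.Lam * (p.B ^ 2 + 5) ≤ p.Lam * (6 * (p.q * p.B)) := Nat.mul_le_mul_left _ e5
            _ = _ := by ring
        have e7 : p.B ^ 2 ≤ p.Lam * (p.q * p.B) := by
          have : p.B ^ 2 ≤ p.q * p.B := by nlinarith
          exact le_trans this (Nat.le_mul_of_pos_left _ (by omega))
        nlinarith
      have h5 : (Ω.filter (bad E0)).card * 2 ^ (p.Lam * (p.q * p.B) + 4 * p.Lam) *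
          2 ^ (p.Lam * (p.B ^ 2 + 1)) ≤ Ω.card * 2 ^ (p.Lam * (p.B ^ 2 + 1)) := by
        rw [mul_assoc, ← pow_add]
        refine le_trans (Nat.mul_le_mul_left _ (Nat.pow_le_pow_right (by norm_num) h4)) ?_
        rw [pow_mul]
        calc _ ≤ 2 ^ (p.Lam * (p.B ^ 2 + 1)) * Ω.card := h3
          _ = _ := by ring
      exact Nat.le_of_mul_le_mul_right h5 (by positivity)
    · have : Ω.filter (bad E0) = ∅ := by
        apply Finset.filter_eq_empty_iff.mpr
        intro φ _ hbad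
        exact hsub hbad.1
      rw [this]
      simp

end Pool.Agent.helper24.TG
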