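import Pool.Agent.helper24.TG.S4
import Pool.Agent.helper82.TG.HP4

set_option linter.all false
set_option autoImplicit false

/-! # QS: few conflicts, small sets -/

namespace Pool.Agent.helper24.TG

open Finset Classical
open Pool.Agent.helper11.Tight (nb eo mem_nb)

theorem QS_q1_le (p : Par) : p.q + 1 ≤ 2 ^ p.Lam := by
  refine le_trans ?_ p.s1
  have hq := MX_q_ge p
  have hB := MX_B_ge p
  have hC : 1 ≤ p.C := by
    rcases Nat.eq_zero_or_pos p.C with h | h
    · have h1 := p.hC1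
      rw [h] at h1
      have h2 := p.hd
      have h3 := MX_c_ge p
      have : 0 < p.c ^ 3 * p.q * p.d :=
        Nat.mul_pos (Nat.mul_pos (pow_pos (by omega) _) (by omega)) (by omega)
      omega
    · exact h
  calc p.q + 1 ≤ p.q ^ 2 := by nlinarith
    _ ≤ 4 * p.B * p.C * p.q ^ 2 := Nat.le_mul_of_pos_left _
        (Nat.mul_pos (Nat.mul_pos (by norm_num) (by omega)) hC)
    _ = _ := by ring

/-- `rho ≥ (c B)^100` -/
theorem QS_rho_ge (p : Par) : ((p.c : ℝ) * p.B) ^ 100 * p.N ≤ p.q * p.d := by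
  have h1 := p.N2
  have hL := p.hL
  have h4 : (p.c * p.B) ^ 100 * p.N ≤ (p.c * p.B) ^ 100 * p.L * (p.K + 1) * p.N := by
    have : (p.c * p.B) ^ 100 ≤ (p.c * p.B) ^ 100 * p.L * (p.K + 1) := by
      rw [mul_assoc]
      exact Nat.le_mul_of_pos_right _ (Nat.mul_pos hL (Nat.succ_pos _))
    exact Nat.mul_le_mul_right _ this
  exact_mod_cast le_trans h4 h1

theorem QS (hQX : QX_stmt) (hQA1 : QA1_stmt) : QS_stmt := by
  intro p P O A V _ _ _ _ _ _ _ _ _ H v T MM v0 hA hT hH3 z i A1 hz hA1 hdis hinj hk1 hkq hkN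
  have hc := MX_c_ge p
  have hq := MX_q_ge p
  have hB := MX_B_ge p
  have hLam := p.hLam
  have hLog := p.hLog
  have hd := p.hd
  have hN := p.hN
  set k := A1.card with hk
  -- real versions
  have hcr : (10 : ℝ) ^ 6 ≤ p.c := by exact_mod_cast hc
  have hqr : (10 : ℝ) ^ 6 ≤ p.q := by exact_mod_cast hq
  have hBr : (10 : ℝ) ^ 6 ≤ p.B := by exact_mod_cast hB
  have hdr : (100 : ℝ) ≤ p.d := by exact_mod_cast hd
  have hNr : (1 : ℝ) ≤ p.N := by exact_mod_cast hN
  have hkr : (1 : ℝ) ≤ k := by exact_mod_cast hk1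
  have hc0 : (0 : ℝ) < p.c := by linarith
  have hq0 : (0 : ℝ) < p.q := by linarith
  have hB0 : (0 : ℝ) < p.B := by linarith
  have hd0 : (0 : ℝ) < p.d := by linarith
  have hN0 : (0 : ℝ) < p.N := by linarith
  have hk0 : (0 : ℝ) < k := by linarith
  have hLr : (1 : ℝ) ≤ p.Lam := by exact_mod_cast hLam
  have hLc : (10 : ℝ) ^ 6 * p.Lam ≤ p.c := by exact_mod_cast hLog
  have hrho := QS_rho_ge p
  have hkNr : (k : ℝ) * (p.c ^ 64 * p.B ^ 16) * p.d ≤ p.N := by exact_mod_cast hkN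
  -- `cB`
  have hcB : (10 : ℝ) ^ 12 ≤ p.c * p.B := by nlinarith
  have hcB1 : (1 : ℝ) ≤ p.c * p.B := by linarith
  set h := k * p.d / 8 with hh
  set s := 4 * p.B * k with hs
  have hhN : 2 * h ≤ p.N := by
    have h1 : 8 * h ≤ k * p.d := Nat.mul_div_le _ _
    have h2 : k * p.d ≤ p.N := by
      refine le_trans ?_ hkN
      have : 1 ≤ p.c ^ 64 * p.B ^ 16 :=
        Nat.mul_pos (pow_pos (by omega) _) (pow_pos (by omega) _)
      calc k * p.d = k * 1 * p.d := by ring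
        _ ≤ _ := Nat.mul_le_mul_right _ (Nat.mul_le_mul_left _ this)
    omega
  have hsq : 4 * s ≤ p.q := by
    have e1 : (k : ℝ) * (p.c ^ 64 * p.B ^ 16) * p.d * (p.c * p.B) ^ 100 ≤ p.q * p.d := by
      calc (k : ℝ) * (p.c ^ 64 * p.B ^ 16) * p.d * (p.c * p.B) ^ 100
          ≤ p.N * (p.c * p.B) ^ 100 := mul_le_mul_of_nonneg_right hkNr (by positivity)
        _ = (p.c * p.B) ^ 100 * p.N := by ring
        _ ≤ _ := hrho
    have e2 : (k : ℝ) * (p.c ^ 64 * p.B ^ 16) * (p.c * p.B) ^ 100 ≤ p.q := by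
      have : ((k : ℝ) * (p.c ^ 64 * p.B ^ 16) * (p.c * p.B) ^ 100) * p.d ≤ p.q * p.d := by
        linarith
      exact le_of_mul_le_mul_right this hd0
    have e3 : (16 : ℝ) * p.B * k ≤ (k : ℝ) * (p.c ^ 64 * p.B ^ 16) * (p.c * p.B) ^ 100 := by
      have f1 : (1 : ℝ) ≤ p.c ^ 64 * p.B ^ 16 :=
        one_le_mul_of_one_le_of_one_le (one_le_pow₀ (by linarith)) (one_le_pow₀ (by linarith))
      have f2 : (p.c : ℝ) * p.B ≤ (p.c * p.B) ^ 100 := le_self_pow₀ hcB1 (by norm_num)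
      have f3 : (16 : ℝ) * p.B ≤ p.c * p.B := mul_le_mul_of_nonneg_right (by linarith) hB0.le
      have f4 : (16 : ℝ) * p.B ≤ (p.c ^ 64 * p.B ^ 16) * (p.c * p.B) ^ 100 := by
        calc (16 : ℝ) * p.B ≤ (p.c * p.B) ^ 100 := f3.trans f2
          _ = 1 * (p.c * p.B) ^ 100 := by ring
          _ ≤ _ := mul_le_mul_of_nonneg_right f1 (by positivity)
      calc (16 : ℝ) * p.B * k ≤ ((p.c ^ 64 * p.B ^ 16) * (p.c * p.B) ^ 100) * k :=
            mul_le_mul_of_nonneg_right f4 hk0.le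
        _ = _ := by ring
    have e4 : ((4 * s : ℕ) : ℝ) ≤ (p.q : ℕ) := by
      rw [hs]; push_cast; linarith
    exact_mod_cast e4
  have hX := hQX p P O A V H v T v0 hA hT.card_V hH3 z i A1 h s hz hA1 hdis hinj hkq
    (by omega) hsq
  rw [← hk] at hX
  have hA := hQA1 p V T MM hT k h hhN (Nat.mul_div_le _ _)
  have hAr : ((BadU T k h).card : ℝ) ^ 4 * (p.N : ℝ) ^ k ≤
      256 ^ k * (p.N : ℝ) ^ (4 * k) * (2 * h) ^ k := by exact_mod_cast hA
  have hPsi : (0 : ℝ) ≤ (Psi p H v0).card := Nat.cast_nonneg _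
  set X : ℝ := (((Psi p H v0).filter (fun φ => (conf p H v T φ i z A1).card < s)).card : ℝ)
    with hXdef
  -- first term
  have hNk : (0 : ℝ) < (p.N : ℝ) ^ k := by positivity
  set W : ℝ := (p.c : ℝ) ^ 15 * p.B ^ 4 with hW
  have hW0 : 0 < W := by rw [hW]; positivity
  have h8h : (8 : ℝ) * h ≤ k * p.d := by
    have : 8 * h ≤ k * p.d := Nat.mul_div_le _ _
    exact_mod_cast this
  have hh0 : (0 : ℝ) ≤ h := Nat.cast_nonneg _
  have t1 : ((BadU T k h).card : ℝ) / (p.N : ℝ) ^ k ≤ (4 / (p.c ^ 16 * p.B ^ 4)) ^ k := by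
    have e1 : (((BadU T k h).card : ℝ) / (p.N : ℝ) ^ k) ^ 4 ≤
        ((4 / (p.c ^ 16 * p.B ^ 4)) ^ k) ^ 4 := by
      rw [div_pow, div_le_iff₀ (by positivity)]
      have e2 : ((BadU T k h).card : ℝ) ^ 4 ≤ 256 ^ k * (p.N : ℝ) ^ (4 * k) * ((2 * h) ^ k / p.N ^ k) := by
        rw [← mul_div_assoc, le_div_iff₀ hNk]
        exact hAr
      refine e2.trans ?_
      have e3 : ((2 * (h : ℝ)) ^ k / p.N ^ k) ≤ (1 / (p.c ^ 64 * p.B ^ 16)) ^ k := by
        rw [← div_pow]
        apply pow_le_pow_left₀ (by positivity)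
        rw [div_le_div_iff₀ hN0 (by positivity), one_mul]
        have f1 : 2 * (h : ℝ) ≤ k * p.d := by linarith
        calc 2 * (h : ℝ) * (p.c ^ 64 * p.B ^ 16) ≤ k * p.d * (p.c ^ 64 * p.B ^ 16) :=
              mul_le_mul_of_nonneg_right f1 (by positivity)
          _ = k * (p.c ^ 64 * p.B ^ 16) * p.d := by ring
          _ ≤ _ := hkNr
      calc 256 ^ k * (p.N : ℝ) ^ (4 * k) * ((2 * (h : ℝ)) ^ k / p.N ^ k)
          ≤ 256 ^ k * (p.N : ℝ) ^ (4 * k) * (1 / (p.c ^ 64 * p.B ^ 16)) ^ k :=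
            mul_le_mul_of_nonneg_left e3 (by positivity)
        _ = ((4 / (p.c ^ 16 * p.B ^ 4)) ^ k) ^ 4 * ((p.N : ℝ) ^ k) ^ 4 := by
            rw [← pow_mul, ← pow_mul, mul_comm k 4, pow_mul, pow_mul (4 / ((p.c : ℝ) ^ 16 * p.B ^ 4)),
              mul_comm (256 ^ k : ℝ), mul_assoc, ← mul_pow, mul_comm]
            congr 2
            field_simp
            norm_num
    exact le_of_pow_le_pow_left₀ (by norm_num) (by positivity) e1
  have t1' : Real.exp 8 * (((BadU T k h).card : ℝ) / (p.N : ℝ) ^ k) * W ^ k ≤ 1 / 2 := by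
    have e8 : Real.exp 8 ≤ 6561 := by
      have h3 : Real.exp 1 ≤ 3 := by
        have h4 : Real.exp 1 < 2.7182818286 := Real.exp_one_lt_d9
        linarith
      calc Real.exp 8 = (Real.exp 1) ^ 8 := by rw [← Real.exp_nat_mul]; norm_num
        _ ≤ 3 ^ 8 := pow_le_pow_left₀ (Real.exp_pos _).le h3 _
        _ = 6561 := by norm_num
    have e1 : (((BadU T k h).card : ℝ) / (p.N : ℝ) ^ k) * W ^ k ≤ 4 / p.c := by
      calc (((BadU T k h).card : ℝ) / (p.N : ℝ) ^ k) * W ^ k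
          ≤ (4 / (p.c ^ 16 * p.B ^ 4)) ^ k * W ^ k :=
            mul_le_mul_of_nonneg_right t1 (by positivity)
        _ = (4 / p.c) ^ k := by
            rw [← mul_pow, hW]
            congr 1
            field_simp
        _ ≤ (4 / p.c) ^ 1 := by
            apply pow_le_pow_of_le_one (by positivity) _ hk1
            rw [div_le_one hc0]
            linarith
        _ = _ := pow_one _
    have e2 : (4 : ℝ) / p.c ≤ 4 / 10 ^ 6 := by
      apply div_le_div_of_nonneg_left (by norm_num) (by norm_num) hcr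
    have e3 : 0 ≤ (((BadU T k h).card : ℝ) / (p.N : ℝ) ^ k) * W ^ k := by positivity
    calc Real.exp 8 * (((BadU T k h).card : ℝ) / (p.N : ℝ) ^ k) * W ^ k
        = Real.exp 8 * ((((BadU T k h).card : ℝ) / (p.N : ℝ) ^ k) * W ^ k) := by ring
      _ ≤ 6561 * (4 / 10 ^ 6) := mul_le_mul e8 (e1.trans e2) e3 (by norm_num)
      _ ≤ 1 / 2 := by norm_num
  -- second term
  have hkd : (k : ℝ) * p.d / 16 ≤ h := by
    have e1 : k * p.d < 8 * (h + 1) := Nat.lt_mul_div_succ _ (by norm_num)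
    have e1r : (k : ℝ) * p.d < 8 * (h + 1) := by exact_mod_cast e1
    have e2 : (16 : ℝ) ≤ k * p.d := by nlinarith
    linarith
  have hq2 : (2 : ℝ) * p.q / 5 ≤ ((p.q / 2 : ℕ) : ℝ) := by
    have e1 : p.q < 2 * (p.q / 2 + 1) := Nat.lt_mul_div_succ _ (by norm_num)
    have e1r : (p.q : ℝ) < 2 * (((p.q / 2 : ℕ) : ℝ) + 1) := by exact_mod_cast e1
    linarith
  have hhNr : (h : ℝ) ≤ p.N := by
    have : h ≤ p.N := by omega
    exact_mod_cast this
  set R : ℝ := p.q * p.d / p.N with hR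
  have hRge : ((p.c : ℝ) * p.B) ^ 100 ≤ R := by
    rw [hR, le_div_iff₀ hN0]
    exact hrho
  have t2 : (((p.N : ℝ) - h) / p.N) ^ (p.q / 2) ≤ Real.exp (-(k * R / 40)) := by
    have e1 : ((p.N : ℝ) - h) / p.N ≤ Real.exp (-(h / p.N)) := by
      have := Real.add_one_le_exp (-((h : ℝ) / p.N))
      calc ((p.N : ℝ) - h) / p.N = -(h / p.N) + 1 := by field_simp; ring
        _ ≤ _ := this
    have e0 : (0 : ℝ) ≤ ((p.N : ℝ) - h) / p.N := div_nonneg (by linarith) hN0.le
    calc (((p.N : ℝ) - h) / p.N) ^ (p.q / 2) ≤ (Real.exp (-(h / p.N))) ^ (p.q / 2) :=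
          pow_le_pow_left₀ e0 e1 _
      _ = Real.exp (((p.q / 2 : ℕ) : ℝ) * (-(h / p.N))) := by rw [← Real.exp_nat_mul]
      _ ≤ _ := by
        apply Real.exp_le_exp.mpr
        have f1 : (2 * p.q / 5) * (k * p.d / 16 / p.N) ≤ ((p.q / 2 : ℕ) : ℝ) * (h / p.N) := by
          apply mul_le_mul hq2 _ (by positivity) (Nat.cast_nonneg _)
          exact div_le_div_of_nonneg_right hkd hN0.le
        have f2 : (2 * (p.q : ℝ) / 5) * (k * p.d / 16 / p.N) = k * R / 40 := by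
          rw [hR]
          field_simp
          ring
        rw [f2] at f1
        linarith
  have hq1 : ((p.q : ℝ) + 1) ≤ Real.exp p.Lam := by
    have e1 : ((p.q : ℝ) + 1) ≤ 2 ^ p.Lam := by exact_mod_cast QS_q1_le p
    have h2e : (2 : ℝ) ≤ Real.exp 1 := by
      have := Real.add_one_le_exp (1 : ℝ)
      linarith
    calc ((p.q : ℝ) + 1) ≤ 2 ^ p.Lam := e1
      _ ≤ (Real.exp 1) ^ p.Lam := pow_le_pow_left₀ (by norm_num) h2e _
      _ = _ := by rw [← Real.exp_nat_mul, mul_one]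
  have t3 : ((p.q : ℝ) + 1) ^ s ≤ Real.exp (4 * p.B * k * p.Lam) := by
    calc ((p.q : ℝ) + 1) ^ s ≤ (Real.exp p.Lam) ^ s := pow_le_pow_left₀ (by positivity) hq1 _
      _ = _ := by
        rw [← Real.exp_nat_mul, hs]
        push_cast
        ring_nf
  have t4 : W ^ k ≤ Real.exp (k * (15 * p.c + 4 * p.B)) := by
    have e1 : W ≤ Real.exp (15 * p.c + 4 * p.B) := by
      have f1 : (p.c : ℝ) ≤ Real.exp p.c := by
        have := Real.add_one_le_exp (p.c : ℝ)
        linarith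
      have f2 : (p.B : ℝ) ≤ Real.exp p.B := by
        have := Real.add_one_le_exp (p.B : ℝ)
        linarith
      rw [hW]
      calc (p.c : ℝ) ^ 15 * p.B ^ 4 ≤ (Real.exp p.c) ^ 15 * (Real.exp p.B) ^ 4 :=
            mul_le_mul (pow_le_pow_left₀ hc0.le f1 _) (pow_le_pow_left₀ hB0.le f2 _)
              (by positivity) (by positivity)
        _ = _ := by
            rw [← Real.exp_nat_mul, ← Real.exp_nat_mul, ← Real.exp_add]
            norm_num
    calc W ^ k ≤ (Real.exp (15 * p.c + 4 * p.B)) ^ k := pow_le_pow_left₀ hW0.le e1 _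
      _ = _ := by rw [← Real.exp_nat_mul]
  have t2' : Real.exp 8 * (((p.q : ℝ) + 1) ^ s * (((p.N : ℝ) - h) / p.N) ^ (p.q / 2)) * W ^ k ≤
      1 / 2 := by
    have e0 : (0 : ℝ) ≤ ((p.N : ℝ) - h) / p.N := div_nonneg (by linarith) hN0.le
    calc Real.exp 8 * (((p.q : ℝ) + 1) ^ s * (((p.N : ℝ) - h) / p.N) ^ (p.q / 2)) * W ^ k
        ≤ Real.exp 8 * (Real.exp (4 * p.B * k * p.Lam) * Real.exp (-(k * R / 40))) *
          Real.exp (k * (15 * p.c + 4 * p.B)) := by
          apply mul_le_mul _ t4 (by positivity) (by positivity)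
          apply mul_le_mul_of_nonneg_left _ (Real.exp_pos _).le
          exact mul_le_mul t3 t2 (by positivity) (by positivity)
      _ = Real.exp (8 + (4 * p.B * k * p.Lam + -(k * R / 40)) + k * (15 * p.c + 4 * p.B)) := by
          rw [← Real.exp_add, ← Real.exp_add, ← Real.exp_add]
      _ ≤ Real.exp (-1) := by
          apply Real.exp_le_exp.mpr
          -- `R / 40 ≥ 4 B Lam + 15 c + 4 B + 9`
          have f0 : (p.c : ℝ) * p.B * (p.c * p.B) ≤ R := by
            refine le_trans ?_ hRge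
            rw [← sq]
            exact pow_le_pow_right₀ hcB1 (by norm_num)
          have f1 : 40 * (4 * p.B * p.Lam + 15 * p.c + 4 * p.B + 9 : ℝ) ≤ R := by
            have g1 : (p.Lam : ℝ) ≤ p.c := by nlinarith
            have g2 : (p.B : ℝ) * p.Lam ≤ p.B * p.c := mul_le_mul_of_nonneg_left g1 hB0.le
            have g3 : (p.c : ℝ) ≤ p.c * p.B := by nlinarith
            have g4 : (p.B : ℝ) ≤ p.c * p.B := by nlinarith
            have g5 : (10 : ℝ) ^ 12 * (p.c * p.B) ≤ p.c * p.B * (p.c * p.B) :=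
              mul_le_mul_of_nonneg_right hcB (by positivity)
            nlinarith
          have f2 : k * (40 * (4 * p.B * p.Lam + 15 * p.c + 4 * p.B + 9 : ℝ)) ≤ k * R :=
            mul_le_mul_of_nonneg_left f1 hk0.le
          nlinarith
      _ ≤ 1 / 2 := by
          rw [Real.exp_neg, one_div]
          apply inv_anti₀ (by norm_num)
          have := Real.add_one_le_exp (1 : ℝ)
          linarith
  -- conclusion
  have hfin : X * W ^ k ≤ (Psi p H v0).card := by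
    have e1 : X ≤ (Psi p H v0).card * (Real.exp 8 * (((BadU T k h).card : ℝ) / (p.N : ℝ) ^ k +
        ((p.q : ℝ) + 1) ^ s * (((p.N : ℝ) - h) / p.N) ^ (p.q / 2))) := by
      have : X * (p.N : ℝ) ^ k ≤ (Psi p H v0).card * (Real.exp 8 *
          (((BadU T k h).card : ℝ) / (p.N : ℝ) ^ k +
          ((p.q : ℝ) + 1) ^ s * (((p.N : ℝ) - h) / p.N) ^ (p.q / 2))) * (p.N : ℝ) ^ k := by
        refine hX.trans (le_of_eq ?_)
        field_simp
      exact le_of_mul_le_mul_right this hNk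
    calc X * W ^ k ≤ (Psi p H v0).card * (Real.exp 8 * (((BadU T k h).card : ℝ) / (p.N : ℝ) ^ k +
        ((p.q : ℝ) + 1) ^ s * (((p.N : ℝ) - h) / p.N) ^ (p.q / 2))) * W ^ k :=
          mul_le_mul_of_nonneg_right e1 (by positivity)
      _ = (Psi p H v0).card * (Real.exp 8 * (((BadU T k h).card : ℝ) / (p.N : ℝ) ^ k) * W ^ k +
          Real.exp 8 * (((p.q : ℝ) + 1) ^ s * (((p.N : ℝ) - h) / p.N) ^ (p.q / 2)) * W ^ k) := by
          ring
      _ ≤ (Psi p H v0).card * (1 / 2 + 1 / 2) :=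
          mul_le_mul_of_nonneg_left (add_le_add t1' t2') hPsi
      _ = _ := by ring
  rw [hXdef, hW] at hfin
  exact_mod_cast hfin

end Pool.Agent.helper24.TG
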