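import Pool.Agent.helper43.TG.Spec

/-!
# Row tg:KGR: the kissing number is attained
-/

set_option autoImplicit false

namespace Pool.Agent.helper43.TG

theorem t_kgr (h : KBD) : KGR := by
  intro n
  have hne : {m : ℕ | ∃ S : Finset (E n), IsKissing S ∧ S.card = m}.Nonempty :=
    ⟨0, ∅, ⟨fun x hx => absurd hx (Finset.notMem_empty x), fun x hx => absurd hx (Finset.notMem_empty x)⟩,
      Finset.card_empty⟩
  have hbd : BddAbove {m : ℕ | ∃ S : Finset (E n), IsKissing S ∧ S.card = m} := by
    refine ⟨3 ^ n, ?_⟩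
    rintro m ⟨S, hS, rfl⟩
    exact h n S hS
  exact ⟨Nat.sSup_mem hne hbd, fun m hm => le_csSup hbd hm⟩

end Pool.Agent.helper43.TG
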