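import Pool.Agent.helper43.TG.Spec

/-!
# Row tg:NUM: the numerical inequality of the colouring theorem
-/

set_option autoImplicit false

namespace Pool.Agent.helper43.TG

theorem t_num : NUM := by
  intro Δ f k hf hfD hD hk
  have hf0 : 0 < f := by linarith
  set L : ℝ := Real.log f with hL
  have hL0 : 0 < L := Real.log_pos hf
  have hkpos : (0 : ℝ) < k := lt_of_lt_of_le (by positivity) hk
  have hk1 : 1 ≤ k := by
    have : 0 < k := by exact_mod_cast hkpos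
    omega
  -- the fourth root
  set φ : ℝ := Real.exp (L / 4) with hφ
  have hφ0 : 0 < φ := Real.exp_pos _
  have hφ1 : 1 ≤ φ := by
    rw [hφ]
    exact Real.one_le_exp (by positivity)
  have hff : f = Real.exp L := by rw [hL, Real.exp_log hf0]
  have hpow : f ^ (-(1 / 4) : ℝ) = φ⁻¹ := by
    rw [hφ, ← Real.exp_neg, Real.rpow_def_of_pos hf0]
    congr 1
    ring
  have hsq : φ ^ 2 * φ ^ 2 = f := by
    rw [hff, hφ, ← Real.exp_nat_mul, ← Real.exp_add]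
    congr 1
    push_cast
    ring
  have hsqrt : Real.sqrt f = φ ^ 2 := by
    rw [← hsq, Real.sqrt_mul_self (by positivity)]
  have hφD : φ ^ 2 ≤ Δ := by
    rw [← hsqrt]
    exact Real.sqrt_le_iff.2 ⟨hD.le, hfD⟩
  rw [hsqrt, hpow]
  set h : ℝ := (⌈Δ / φ ^ 2⌉₊ : ℝ) with hh
  have hq0 : 0 < Δ / φ ^ 2 := by positivity
  have hq1 : 1 ≤ Δ / φ ^ 2 := by
    rw [one_le_div (by positivity)]
    exact hφD
  have hhl : Δ / φ ^ 2 ≤ h := Nat.le_ceil _
  have hhu : h ≤ Δ / φ ^ 2 + 1 := (Nat.ceil_lt_add_one hq0.le).le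
  have hh2 : 3 * h + 2 ≤ 10 * (Δ / φ ^ 2) := by linarith
  have hl0 : 0 < Δ * φ⁻¹ := by positivity
  refine ⟨hk1, hl0, by linarith, ?_⟩
  -- the third term
  have h3 : Δ * (3 * h + 2) / (Δ * φ⁻¹) ≤ 10 * (Δ * φ⁻¹) := by
    have e : Δ * (3 * h + 2) / (Δ * φ⁻¹) = (3 * h + 2) * φ := by
      field_simp
    rw [e]
    calc (3 * h + 2) * φ ≤ 10 * (Δ / φ ^ 2) * φ := mul_le_mul_of_nonneg_right hh2 hφ0.le
      _ = 10 * (Δ * φ⁻¹) := by
        field_simp
  -- the second term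
  have h2 : 2 * Δ / φ ^ 2 ≤ 2 * (Δ * φ⁻¹) := by
    have e : 2 * Δ / φ ^ 2 = 2 * (Δ * φ⁻¹) * φ⁻¹ := by
      field_simp
    rw [e]
    have h4 : φ⁻¹ ≤ 1 := inv_le_one_of_one_le₀ hφ1
    calc 2 * (Δ * φ⁻¹) * φ⁻¹ ≤ 2 * (Δ * φ⁻¹) * 1 := mul_le_mul_of_nonneg_left h4 (by positivity)
      _ = 2 * (Δ * φ⁻¹) := mul_one _
  -- the main term
  have h1 : 13 * (Δ * φ⁻¹) ≤ (k : ℝ) * Real.exp (-(2 * Δ) / k) := by
    have h5 : -(L / 20) ≤ -(2 * Δ) / k := by
      rw [div_le_iff₀ hL0] at hk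
      rw [le_div_iff₀ hkpos]
      nlinarith
    have h6 : Real.exp (-(L / 20)) ≤ Real.exp (-(2 * Δ) / k) := Real.exp_le_exp.2 h5
    have h7 : 40 * Δ / L * Real.exp (-(L / 20)) ≤ (k : ℝ) * Real.exp (-(2 * Δ) / k) :=
      mul_le_mul hk h6 (Real.exp_pos _).le hkpos.le
    refine le_trans ?_ h7
    have h8 : φ⁻¹ = Real.exp (-(L / 20)) * (Real.exp (L / 5))⁻¹ := by
      rw [hφ, ← Real.exp_neg, ← Real.exp_neg, ← Real.exp_add]
      congr 1
      ring
    have h9 := Real.quadratic_le_exp_of_nonneg (show 0 ≤ L / 5 by positivity)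
    have h10 : 13 * L ≤ 40 * Real.exp (L / 5) := by nlinarith [sq_nonneg (L - 5)]
    have h11 : 0 < Real.exp (L / 5) := Real.exp_pos _
    have h12 : 13 * (Real.exp (L / 5))⁻¹ ≤ 40 / L := by
      rw [le_div_iff₀ hL0, mul_assoc, mul_comm, mul_assoc, inv_mul_le_iff₀ h11]
      linarith
    rw [h8]
    calc 13 * (Δ * (Real.exp (-(L / 20)) * (Real.exp (L / 5))⁻¹))
        = (13 * (Real.exp (L / 5))⁻¹) * (Δ * Real.exp (-(L / 20))) := by ring
      _ ≤ 40 / L * (Δ * Real.exp (-(L / 20))) := mul_le_mul_of_nonneg_right h12 (by positivity)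
      _ = 40 * Δ / L * Real.exp (-(L / 20)) := by ring
  linarith

end Pool.Agent.helper43.TG
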